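import Mathlib

set_option autoImplicit false

namespace Pool.Agent.H.MP_70eb0a_al

/-- the rationals whose denominators are prime to `p` -/
def Zp (p : ℕ) : Subring ℚ where
  carrier := {q | q.den.Coprime p}
  mul_mem' := fun {a b} ha hb =>
    Nat.Coprime.coprime_dvd_left (Rat.mul_den_dvd a b) (Nat.Coprime.mul_left ha hb)
  add_mem' := fun {a b} ha hb =>
    Nat.Coprime.coprime_dvd_left (Rat.add_den_dvd a b) (Nat.Coprime.mul_left ha hb)
  one_mem' := by simp
  zero_mem' := by simp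
  neg_mem' := fun {a} ha => by simpa using ha

/-- `R/J(R)` is semisimple and idempotents lift modulo `J(R)` -/
def Semiperfect (R : Type) [Ring R] : Prop :=
  IsSemisimpleRing (R ⧸ Ring.jacobson R) ∧
  ∀ x : R, x * x - x ∈ Ring.jacobson R → ∃ e : R, e * e = e ∧ e - x ∈ Ring.jacobson R

/-- there is a short exact sequence `0 → A → B → C → 0` -/
def SES (R A B C : Type) [Ring R] [AddCommGroup A] [Module R A] [AddCommGroup B] [Module R B]
    [AddCommGroup C] [Module R C] : Prop :=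
  ∃ (f : A →ₗ[R] B) (g : B →ₗ[R] C),
    Function.Injective f ∧ Function.Surjective g ∧ Function.Exact f g

/-- the relations `[B] = [A] + [C]` of short exact sequences of finitely generated modules -/
def rels (R : Type) [Ring R] : Set (FreeAbelianGroup (FGModuleCat.{0} R)) :=
  {x | ∃ A B C : FGModuleCat.{0} R, SES R A B C ∧
    x = FreeAbelianGroup.of B - FreeAbelianGroup.of A - FreeAbelianGroup.of C}

/-- the class of `M` in the Grothendieck group `G_0(R)` -/
def cls {R : Type} [Ring R] (M : FGModuleCat.{0} R) :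
    FreeAbelianGroup (FGModuleCat.{0} R) ⧸ AddSubgroup.closure (rels R) :=
  QuotientAddGroup.mk (FreeAbelianGroup.of M)

/-- `V` is a simple `ℚG`-module -/
def IsSimp {G V : Type} [Group G] [AddCommGroup V] [Module ℚ V] (ρ : Representation ℚ G V) : Prop :=
  Nontrivial V ∧ ∀ U : Submodule ℚ V, (∀ g, ∀ v ∈ U, ρ g v ∈ U) → U = ⊥ ∨ U = ⊤

/-- `L` is finitely generated over `Z_(p)` and spans `V` -/
def IsLat {p : ℕ} {V : Type} [AddCommGroup V] [Module ℚ V] (L : Submodule (Zp p) V) : Prop :=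
  L.FG ∧ Submodule.span ℚ (L : Set V) = ⊤

/-- `L` is `G`-stable and `π` (read on `L`) is an additive equivariant surjection `L → W`
with kernel `pL` -/
def IsMod {G V W : Type} [Group G] [AddCommGroup V] [Module ℚ V] (ρ : Representation ℚ G V) (p : ℕ)
    [AddCommGroup W] [Module (MonoidAlgebra (ZMod p) G) W] (L : Set V) (π : V → W) : Prop :=
  (∀ x ∈ L, ∀ y ∈ L, π (x + y) = π x + π y) ∧ (∀ w, ∃ x ∈ L, π x = w) ∧
  (∀ x ∈ L, π x = 0 ↔ ∃ y ∈ L, x = p • y) ∧
  ∀ g, ∀ x ∈ L, ρ g x ∈ L ∧ π (ρ g x) = MonoidAlgebra.of (ZMod p) G g • π x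

/-- `W` is `L/pL` for a `G`-stable `Z_(p)`-lattice `L` in a simple `ℚG`-module `V` -/
def IsRed (G : Type) [Group G] (p : ℕ) (W : FGModuleCat.{0} (MonoidAlgebra (ZMod p) G)) : Prop :=
  ∃ (V : Type) (_ : AddCommGroup V) (_ : Module ℚ V) (ρ : Representation ℚ G V)
    (L : Submodule (Zp p) V) (π : V → W), IsSimp ρ ∧ IsLat L ∧ IsMod ρ p (L : Set V) π

/-- a projective indecomposable module -/
def IsPIM (R P : Type) [Ring R] [AddCommGroup P] [Module R P] : Prop :=
  Module.Projective R P ∧ Nontrivial P ∧ ∀ A B : Submodule R P, IsCompl A B → A = ⊥ ∨ B = ⊥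

/-- condition (N) -/
def CondN (G : Type) [Group G] (p : ℕ) : Prop :=
  ∀ P : FGModuleCat.{0} (MonoidAlgebra (ZMod p) G), IsPIM (MonoidAlgebra (ZMod p) G) P →
    cls P ∈ AddSubmonoid.closure {x | ∃ W, IsRed G p W ∧ x = cls W}

end Pool.Agent.H.MP_70eb0a_al
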