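import Mathlib
import Pool.Agent.H.MP_70eb0a_al.D

set_option autoImplicit false

namespace Pool.Agent.H.MP_70eb0a_al

open Quaternion QuaternionGroup

abbrev G := QuaternionGroup 3
abbrev S := Zp 2
abbrev R := MonoidAlgebra S G
abbrev Q (K : Type) [CommRing K] := QuaternionAlgebra K (-1) (-1) (-1)

def nrm {K : Type} [CommRing K] (q : Q K) : K :=
  q.re ^ 2 - q.re * q.imI + q.imI ^ 2 + q.imJ ^ 2 - q.imJ * q.imK + q.imK ^ 2

theorem nrm_mul {K : Type} [CommRing K] (a b : Q K) : nrm (a * b) = nrm a * nrm b := by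
  simp only [nrm, QuaternionAlgebra.re_mul, QuaternionAlgebra.imI_mul, QuaternionAlgebra.imJ_mul,
    QuaternionAlgebra.imK_mul]
  ring

theorem nrm_zero (q : Q S) (h : nrm q = 0) : q = 0 := by
  have h' := congrArg (fun x : S => (x : ℚ)) h
  simp only [nrm] at h'
  push_cast at h'
  have e1 : ((q.re : ℚ)) = 0 := by
    nlinarith [sq_nonneg ((q.re : ℚ) - 2 * q.imI), sq_nonneg (2 * (q.imJ : ℚ) - q.imK),
      sq_nonneg (q.imK : ℚ), sq_nonneg (q.re : ℚ)]
  have e2 : ((q.imI : ℚ)) = 0 := by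
    nlinarith [sq_nonneg (2 * (q.re : ℚ) - q.imI), sq_nonneg (2 * (q.imJ : ℚ) - q.imK),
      sq_nonneg (q.imK : ℚ), sq_nonneg (q.imI : ℚ)]
  have e3 : ((q.imJ : ℚ)) = 0 := by
    nlinarith [sq_nonneg (2 * (q.re : ℚ) - q.imI), sq_nonneg ((q.imJ : ℚ) - 2 * q.imK),
      sq_nonneg (q.imJ : ℚ), sq_nonneg (q.imI : ℚ)]
  have e4 : ((q.imK : ℚ)) = 0 := by
    nlinarith [sq_nonneg (2 * (q.re : ℚ) - q.imI), sq_nonneg (2 * (q.imJ : ℚ) - q.imK),
      sq_nonneg (q.imK : ℚ), sq_nonneg (q.imI : ℚ)]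
  ext
  · simpa using e1
  · simpa using e2
  · simpa using e3
  · simpa using e4

theorem idem (f : Q S) (h : f * f = f) : f = 0 ∨ f = 1 := by
  have h1 : nrm f * nrm (1 - f) = 0 := by
    rw [← nrm_mul, mul_sub, mul_one, h, sub_self]; simp [nrm]
  rcases mul_eq_zero.1 h1 with h2 | h2
  · exact Or.inl (nrm_zero _ h2)
  · exact Or.inr (sub_eq_zero.1 (nrm_zero _ h2)).symm

theorem two_nu (u : S) : u * 2 ≠ 1 := by
  intro h
  have h' := congrArg (fun x : S => (x : ℚ)) h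
  have h2 : ((2 : S) : ℚ) = 2 := rfl
  simp only [Subring.coe_mul, h2, OneMemClass.coe_one] at h'
  have h3 : (u : ℚ) = 1 / 2 := by linarith
  have h4 : (u : ℚ).den.Coprime 2 := u.2
  rw [h3] at h4
  norm_num at h4

def tz : G → Q ℤ
  | a i => ![⟨1, 0, 0, 0⟩, ⟨1, 1, 0, 0⟩, ⟨0, 1, 0, 0⟩, ⟨-1, 0, 0, 0⟩, ⟨-1, -1, 0, 0⟩,
      ⟨0, -1, 0, 0⟩] i
  | xa i => ![⟨0, 0, 1, 0⟩, ⟨0, 0, 0, -1⟩, ⟨0, 0, -1, -1⟩, ⟨0, 0, -1, 0⟩, ⟨0, 0, 0, 1⟩,
      ⟨0, 0, 1, 1⟩] i

theorem tz_mul : ∀ g h : G, (tz (g * h)).re = (tz g * tz h).re ∧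
    (tz (g * h)).imI = (tz g * tz h).imI ∧ (tz (g * h)).imJ = (tz g * tz h).imJ ∧
    (tz (g * h)).imK = (tz g * tz h).imK := by decide

def emb (q : Q ℤ) : Q S := ⟨q.re, q.imI, q.imJ, q.imK⟩

theorem emb_mul (p q : Q ℤ) : emb (p * q) = emb p * emb q := by
  ext <;> simp [emb]

def σ : G →* Q S where
  toFun g := emb (tz g)
  map_one' := by
    have : tz 1 = 1 := rfl
    rw [this]; ext <;> simp [emb]
  map_mul' g h := by
    rw [← emb_mul]
    obtain ⟨h1, h2, h3, h4⟩ := tz_mul g h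
    rw [QuaternionAlgebra.ext h1 h2 h3 h4]

theorem two_jac : Ideal.span {(2 : S)} ≤ Ideal.jacobson ⊥ := by
  rw [Ideal.span_le, Set.singleton_subset_iff]
  refine Ideal.mem_jacobson_bot.2 fun y => ?_
  have hy : (y : ℚ).den.Coprime 2 := y.2
  have hodd : Odd (y : ℚ).den := Nat.coprime_two_right.1 hy
  have hne : (2 * (y : ℚ).num + (y : ℚ).den : ℤ) ≠ 0 := by
    obtain ⟨k, hk⟩ := hodd
    omega
  have hmem : Rat.divInt (y : ℚ).den (2 * (y : ℚ).num + (y : ℚ).den) ∈ Zp 2 := by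
    have hd := Rat.den_dvd ((y : ℚ).den : ℤ) (2 * (y : ℚ).num + (y : ℚ).den)
    change Nat.Coprime _ 2
    rw [Nat.coprime_two_right, ← Nat.not_even_iff_odd]
    intro he
    have h2 : (2 : ℤ) ∣ 2 * (y : ℚ).num + (y : ℚ).den :=
      dvd_trans (by exact_mod_cast he.two_dvd) hd
    obtain ⟨k, hk⟩ := hodd
    omega
  refine IsUnit.of_mul_eq_one ⟨_, hmem⟩ (Subtype.ext ?_)
  have h2 : ((2 : S) : ℚ) = 2 := rfl
  simp only [Subring.coe_mul, Subring.coe_add, h2, OneMemClass.coe_one, Rat.divInt_eq_div]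
  have hq : ((2 * (y : ℚ).num + (y : ℚ).den : ℤ) : ℚ) ≠ 0 := by exact_mod_cast hne
  have hd : ((y : ℚ).den : ℚ) ≠ 0 := by exact_mod_cast (y : ℚ).den_nz
  have hy' : (y : ℚ) * (y : ℚ).den = (y : ℚ).num := Rat.mul_den_eq_num _
  field_simp
  push_cast
  linarith

theorem two_mem (m : Ideal R) (hm : m.IsMaximal) : (2 : R) ∈ m := by
  by_contra h
  obtain ⟨r, μ, hμ, e⟩ := hm.exists_inv h
  have : (⊤ : Submodule S R) ≤ m.restrictScalars S := by
    refine Submodule.le_of_le_smul_of_le_jacobson_bot Module.Finite.fg_top two_jac fun y _ => ?_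
    have hy : y = y * μ + (2 : S) • (y * r) := by
      rw [two_smul, ← mul_two, mul_assoc, ← mul_add, add_comm, e, mul_one]
    rw [hy]
    exact Submodule.add_mem_sup (m.mul_mem_left y hμ)
      (Submodule.smul_mem_smul (Ideal.mem_span_singleton_self _) trivial)
  exact hm.ne_top ((Ideal.eq_top_iff_one m).2 (this trivial))

theorem sq_id {T : Type} [Ring T] (a b z : T) (h1 : a * (a * a) = 1) (h2 : b * a = a * (a * b))
    (h3 : b * b = z) : (a + a * b + a * a * b) * (a + a * b + a * a * b) - (a + a * b + a * a * b) =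
      (a * a + b + z) * 2 + (a + a * a) * (z - 1) := by
  have h1' : ∀ w, a * (a * (a * w)) = w := fun w => by
    rw [← mul_assoc a a w, ← mul_assoc, h1, one_mul]
  have h2' : ∀ w, b * (a * w) = a * (a * (b * w)) := fun w => by
    rw [← mul_assoc, h2, mul_assoc, mul_assoc]
  simp only [mul_add, add_mul, mul_assoc, h1', h2', h2, h1, h3, mul_two, mul_sub, mul_one]
  abel

theorem aux {T : Type} [Ring T] (z y : T) : z * (1 - y) = z * -1 * y + z := by
  rw [mul_neg_one, neg_mul, mul_sub z 1, mul_one]; abel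

theorem not_semi : ¬ Semiperfect R := by
  rintro ⟨-, h⟩
  obtain ⟨A, hA⟩ : ∃ A : R, A = MonoidAlgebra.of S G (a 2) := ⟨_, rfl⟩
  obtain ⟨B, hB⟩ : ∃ B : R, B = MonoidAlgebra.of S G (xa 0) := ⟨_, rfl⟩
  obtain ⟨Z, hZ⟩ : ∃ Z : R, Z = MonoidAlgebra.of S G (a 3) := ⟨_, rfl⟩
  have h1 : A * (A * A) = 1 := by
    rw [hA, ← map_mul, ← map_mul, ← map_one (MonoidAlgebra.of S G)]; congr 1
  have h2 : B * A = A * (A * B) := by
    rw [hA, hB, ← map_mul, ← map_mul, ← map_mul]; congr 1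
  have h3 : B * B = Z := by
    rw [hZ, hB, ← map_mul]; congr 1
  have h4 : Z * Z = 1 := by
    rw [hZ, ← map_mul, ← map_one (MonoidAlgebra.of S G)]; congr 1
  have h5 : ∀ r : R, Z * r = r * Z := fun r => by
    have : ∀ g : G, a 3 * g = g * a 3 := by decide
    induction r using MonoidAlgebra.induction_on with
    | of g => rw [hZ, ← map_mul, ← map_mul, this]
    | add f g hf hg => rw [mul_add, add_mul, hf, hg]
    | smul c f hf => rw [mul_smul_comm, smul_mul_assoc, hf]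
  have hz : ∀ m : Ideal R, m.IsMaximal → Z - 1 ∈ m := fun m hm => by
    by_contra hn
    obtain ⟨r, μ, hμ, e⟩ := hm.exists_inv hn
    apply hn
    have : Z - 1 = (Z - 1) * μ + r * (1 - Z) * 2 := by
      have e' : μ = 1 - r * (Z - 1) := eq_sub_of_add_eq' e
      rw [e']
      simp only [mul_sub, sub_mul, mul_one, one_mul, mul_two, ← mul_assoc, h5 r]
      simp only [mul_assoc, h4, mul_one]
      abel
    rw [this]
    exact m.add_mem (m.mul_mem_left _ hμ) (m.mul_mem_left _ (two_mem m hm))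
  obtain ⟨e, he, hj⟩ := h (A + A * B + A * A * B) (by
    rw [sq_id A B Z h1 h2 h3, Ring.jacobson_eq_sInf_isMaximal, Ideal.mem_sInf]
    intro m hm
    exact m.add_mem (m.mul_mem_left _ (two_mem m hm)) (m.mul_mem_left _ (hz m hm)))
  obtain ⟨ρ, hρ⟩ : ∃ ρ : R →ₐ[S] Q S, ∀ g, ρ (MonoidAlgebra.of S G g) = emb (tz g) :=
    ⟨MonoidAlgebra.lift S (Q S) G σ, fun g => by rw [MonoidAlgebra.lift_of]; rfl⟩
  have hx : ρ (A + A * B + A * A * B) = ⟨0, 1, -1, 0⟩ := by
    have e1 : tz (a 2) = ⟨0, 1, 0, 0⟩ := rfl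
    have e2 : tz (xa 0) = ⟨0, 0, 1, 0⟩ := rfl
    simp only [map_add, map_mul, hA, hB, hρ, e1, e2]
    ext <;> simp [emb]
  rw [← Ideal.jacobson_bot, Ideal.mem_jacobson_iff] at hj
  rcases idem (ρ e) (by rw [← map_mul, he]) with h0 | h0
  · obtain ⟨z, hz⟩ := hj 1
    have := congrArg (fun w => nrm (ρ w)) (show z * (e - (A + A * B + A * A * B) + 1) = 1 by
      rw [Ideal.mem_bot, sub_eq_zero] at hz
      refine Eq.trans ?_ hz; noncomm_ring)
    simp only [map_mul ρ z, nrm_mul, map_add ρ _ 1, map_sub, h0, hx, map_one] at this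
    apply two_nu (nrm (ρ z) * 2)
    rw [mul_assoc]
    convert this using 1
    · congr 1; simp [nrm]; norm_num
    · simp [nrm]
  · obtain ⟨z, hz⟩ := hj (-1)
    have := congrArg (fun w => nrm (ρ w)) (show z * (1 - (e - (A + A * B + A * A * B))) = 1 by
      rw [Ideal.mem_bot, sub_eq_zero] at hz
      exact (aux _ _).trans hz)
    simp only [map_mul ρ z, nrm_mul, map_sub, h0, hx, map_one] at this
    apply two_nu (nrm (ρ z))
    convert this using 1
    · congr 1; simp [nrm]; norm_num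
    · simp [nrm]

end Pool.Agent.H.MP_70eb0a_al
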