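import Mathlib
import Pool.Agent.H.MP_70eb0a_al.A

set_option autoImplicit false

namespace Pool.Agent.H.MP_70eb0a_al

open QuaternionGroup

abbrev F := MonoidAlgebra (ZMod 2) G

theorem den_ne (q : S) : (((q : ℚ).den : ℕ) : ZMod 2) ≠ 0 := by
  have h : (q : ℚ).den.Coprime 2 := q.2
  rw [Ne, ZMod.natCast_eq_zero_iff]
  intro h2
  exact absurd (Nat.Coprime.eq_one_of_dvd h.symm h2) (by norm_num)

def red : S →+* ZMod 2 where
  toFun q := ((q : ℚ) : ZMod 2)
  map_one' := by simp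
  map_zero' := by simp
  map_mul' x y := Rat.cast_mul_of_ne_zero (den_ne x) (den_ne y)
  map_add' x y := Rat.cast_add_of_ne_zero (den_ne x) (den_ne y)

theorem red_zero (q : S) (h : red q = 0) : ∃ y : S, q = 2 * y := by
  have h1 : (((q : ℚ).num : ℤ) : ZMod 2) = 0 := by
    have : red q = ((q : ℚ).num : ZMod 2) / ((q : ℚ).den : ZMod 2) := Rat.cast_def _
    rw [this, div_eq_zero_iff] at h
    exact h.resolve_right (den_ne q)
  obtain ⟨k, hk⟩ := (ZMod.intCast_zmod_eq_zero_iff_dvd _ 2).1 h1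
  have hm : Rat.divInt k (q : ℚ).den ∈ Zp 2 := by
    have hd := Rat.den_dvd k ((q : ℚ).den : ℤ)
    exact Nat.Coprime.coprime_dvd_left (by exact_mod_cast hd) q.2
  refine ⟨⟨_, hm⟩, Subtype.ext ?_⟩
  have h2 : ((2 : S) : ℚ) = 2 := rfl
  simp only [Subring.coe_mul, h2, Rat.divInt_eq_div]
  have := Rat.num_div_den (q : ℚ)
  rw [hk] at this
  refine this.symm.trans ?_
  push_cast
  ring

def rep {n : ℕ} (τ : G →* Matrix (Fin n) (Fin n) ℤ) : Representation ℚ G (Fin n → ℚ) :=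
  (Matrix.toLinAlgEquiv'.toAlgHom.toRingHom.toMonoidHom.comp
    (Int.castRingHom ℚ).mapMatrix.toMonoidHom).comp τ

theorem rep_apply {n : ℕ} (τ : G →* Matrix (Fin n) (Fin n) ℤ) (g : G) (x : Fin n → ℚ) (i : Fin n) :
    rep τ g x i = ∑ j, (τ g i j : ℚ) * x j := by
  simp [rep, Matrix.toLinAlgEquiv'_apply, Matrix.mulVec, dotProduct]

def lat (n : ℕ) : Submodule S (Fin n → ℚ) where
  carrier := {x | ∀ i, x i ∈ Zp 2}
  add_mem' ha hb i := add_mem (ha i) (hb i)
  zero_mem' _ := zero_mem _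
  smul_mem' c _ hx i := mul_mem c.2 (hx i)

theorem lat_fg (n : ℕ) : (lat n).FG := by
  refine ⟨Finset.univ.image fun i => Pi.single i 1, le_antisymm ?_ fun x hx => ?_⟩
  · rw [Submodule.span_le]
    intro x hx
    simp only [Finset.coe_image, Set.mem_image] at hx
    obtain ⟨i, -, rfl⟩ := hx
    intro j
    by_cases h : j = i
    · subst h; simpa using one_mem _
    · simpa [h] using zero_mem _
  · have : x = ∑ i, (⟨x i, hx i⟩ : S) • (Pi.single i 1 : Fin n → ℚ) := by
      ext j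
      simp [Finset.sum_apply, Pi.single_apply, Subring.smul_def]
    rw [this]
    exact Submodule.sum_mem _ fun i _ => Submodule.smul_mem _ _
      (Submodule.subset_span (by simp))

theorem lat_span (n : ℕ) : Submodule.span ℚ (lat n : Set (Fin n → ℚ)) = ⊤ := by
  rw [eq_top_iff, ← (Pi.basisFun ℚ (Fin n)).span_eq]
  refine Submodule.span_mono ?_
  rintro _ ⟨i, rfl⟩ j
  by_cases h : j = i
  · subst h; simpa using one_mem _
  · simpa [h] using zero_mem _

theorem lat_st {n : ℕ} (τ : G →* Matrix (Fin n) (Fin n) ℤ) :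
    ∀ g, ∀ v ∈ lat n, rep τ g v ∈ lat n := fun g v hv i => by
  rw [rep_apply]
  exact sum_mem fun j _ => mul_mem (intCast_mem _ _) (hv j)

theorem sub {M : Type} [AddCommGroup M] [Module F M] [Finite M] {n : ℕ}
    (τ : G →* Matrix (Fin (n + 1)) (Fin (n + 1)) ℤ)
    (hs : ∀ U : Submodule ℚ (Fin (n + 1) → ℚ), (∀ g, ∀ v ∈ U, rep τ g v ∈ U) → U = ⊥ ∨ U = ⊤)
    (v : Fin (n + 1) → M) (hv : ∀ g j, MonoidAlgebra.of (ZMod 2) G g • v j = ∑ i, τ g i j • v i)
    (hi : ∀ c : Fin (n + 1) → ZMod 2, ∑ i, algebraMap (ZMod 2) F (c i) • v i = 0 → c = 0) :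
    ∃ T : Submodule F M, T ≠ ⊥ ∧ IsRed G 2 (FGModuleCat.of F T) := by
  obtain ⟨π, hπ⟩ : ∃ π : lat (n + 1) →+ M,
      ∀ x, π x = ∑ i, algebraMap (ZMod 2) F (red ⟨x.1 i, x.2 i⟩) • v i := by
    refine ⟨AddMonoidHom.mk' (fun x => ∑ i, algebraMap (ZMod 2) F (red ⟨x.1 i, x.2 i⟩) • v i)
      fun x y => ?_, fun _ => rfl⟩
    rw [← Finset.sum_add_distrib]
    refine Finset.sum_congr rfl fun i _ => ?_
    rw [← add_smul, ← map_add, ← map_add]; rfl
  have he : ∀ g (x : lat (n + 1)), π ⟨rep τ g x, lat_st τ g x x.2⟩ =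
      MonoidAlgebra.of (ZMod 2) G g • π x := fun g x => by
    rw [hπ, hπ, Finset.smul_sum]
    have h1 : ∀ i, (⟨rep τ g x i, lat_st τ g x x.2 i⟩ : S) =
        ∑ j, (τ g i j : S) * ⟨x.1 j, x.2 j⟩ := fun i => by
      apply Subtype.ext
      simp [rep_apply]
    simp only [h1, map_sum, map_mul, map_intCast, Finset.sum_smul]
    rw [Finset.sum_comm]
    refine Finset.sum_congr rfl fun j _ => ?_
    rw [smul_smul, ← Algebra.commutes, ← smul_smul, hv, Finset.smul_sum]
    refine Finset.sum_congr rfl fun i _ => ?_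
    rw [mul_smul, Int.cast_smul_eq_zsmul, smul_comm]
  have hc : ∀ (r : F) (x : lat (n + 1)), ∃ y, π y = r • π x := fun r x => by
    induction r using MonoidAlgebra.induction_on with
    | of g => exact ⟨_, he g x⟩
    | add f g hf hg =>
      obtain ⟨y, hy⟩ := hf
      obtain ⟨z, hz⟩ := hg
      exact ⟨y + z, by rw [map_add, hy, hz, add_smul]⟩
    | smul c f hf =>
      have : c = 0 ∨ c = 1 := by revert c; decide
      rcases this with rfl | rfl
      · exact ⟨0, by simp⟩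
      · simpa using hf
  let T : Submodule F M :=
    { carrier := Set.range π
      add_mem' := by rintro _ _ ⟨x, rfl⟩ ⟨y, rfl⟩; exact ⟨x + y, map_add _ _ _⟩
      zero_mem' := ⟨0, map_zero _⟩
      smul_mem' := by rintro r _ ⟨x, rfl⟩; exact hc r x }
  have hk : ∀ x, π x = 0 ↔ ∃ y : lat (n + 1), x = 2 • y := fun x => by
    constructor
    · intro h
      rw [hπ] at h
      have h2 := hi _ h
      choose y hy using fun i => red_zero ⟨x.1 i, x.2 i⟩ (congrFun h2 i)
      refine ⟨⟨fun i => y i, fun i => (y i).2⟩, Subtype.ext (funext fun i => ?_)⟩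
      have := congrArg Subtype.val (hy i)
      have h3 : ((2 : S) : ℚ) = 2 := rfl
      simpa [h3] using this
    · rintro ⟨y, rfl⟩
      rw [map_nsmul, hπ, Finset.smul_sum]
      refine Finset.sum_eq_zero fun i _ => ?_
      rw [two_smul, ← add_smul, ← map_add, CharTwo.add_self_eq_zero, map_zero, zero_smul]
  obtain ⟨π', hπ'⟩ : ∃ π' : (Fin (n + 1) → ℚ) → T, ∀ x (hx : x ∈ lat (n + 1)),
      (π' x : M) = π ⟨x, hx⟩ := by
    classical
    exact ⟨fun x => if hx : x ∈ lat (n + 1) then ⟨π ⟨x, hx⟩, _, rfl⟩ else 0,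
      fun x hx => by simp [hx]⟩
  refine ⟨T, fun h => ?_, Fin (n + 1) → ℚ, inferInstance, inferInstance, rep τ, lat (n + 1), π',
    ⟨inferInstance, hs⟩, ⟨lat_fg _, lat_span _⟩, fun x hx y hy => Subtype.ext ?_, ?_,
    fun x hx => ?_, fun g x hx => ⟨lat_st τ g x hx, Subtype.ext ?_⟩⟩
  · have h1 : π ⟨fun _ => 1, fun _ => one_mem _⟩ ∈ T := ⟨_, rfl⟩
    rw [h, Submodule.mem_bot, hπ] at h1
    have := congrFun (hi _ h1) 0
    have h2 : (⟨1, one_mem _⟩ : S) = 1 := rfl
    simp [h2] at this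
  · change (π' (x + y) : M) = π' x + π' y
    rw [hπ' x hx, hπ' y hy, hπ' _ (add_mem hx hy), ← map_add]; rfl
  · rintro ⟨_, x, rfl⟩; exact ⟨x, x.2, Subtype.ext (hπ' _ x.2)⟩
  · rw [Subtype.ext_iff, hπ' x hx]
    refine (hk ⟨x, hx⟩).trans ⟨?_, ?_⟩
    · rintro ⟨y, hy⟩; exact ⟨y, y.2, congrArg Subtype.val hy⟩
    · rintro ⟨y, hy, e⟩; exact ⟨⟨y, hy⟩, Subtype.ext e⟩
  · change (π' (rep τ g x) : M) = MonoidAlgebra.of (ZMod 2) G g • (π' x : M)
    rw [hπ' x hx, hπ' _ (lat_st τ g x hx)]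
    exact he g ⟨x, hx⟩

def τ2 : G →* Matrix (Fin 2) (Fin 2) ℤ where
  toFun
    | a i => !![0, -1; 1, -1] ^ (2 * i.val)
    | xa i => !![1, -1; 0, -1] * !![0, -1; 1, -1] ^ (2 * i.val)
  map_one' := by decide
  map_mul' := by decide +kernel

theorem gen (P : G → Prop) (h1 : P 1) (hm : ∀ g h, P g → P h → P (g * h)) (ha : P (a 2))
    (hb : P (xa 0)) (g : G) : P g := by
  have : ∀ g : G, ∃ i : Fin 3, ∃ j : Fin 4, g = a 2 ^ i.val * xa 0 ^ j.val := by decide +kernel
  obtain ⟨i, j, rfl⟩ := this g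
  have hp : ∀ x, P x → ∀ k : ℕ, P (x ^ k) := fun x hx k => by
    induction k with
    | zero => simpa using h1
    | succ k ih => rw [pow_succ]; exact hm _ _ ih hx
  exact hm _ _ (hp _ ha _) (hp _ hb _)

theorem act {M : Type} [AddCommGroup M] [Module F M] {n : ℕ}
    (τ : G →* Matrix (Fin n) (Fin n) ℤ) (v : Fin n → M)
    (ha : ∀ j, MonoidAlgebra.of (ZMod 2) G (a 2) • v j = ∑ i, τ (a 2) i j • v i)
    (hb : ∀ j, MonoidAlgebra.of (ZMod 2) G (xa 0) • v j = ∑ i, τ (xa 0) i j • v i) :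
    ∀ g j, MonoidAlgebra.of (ZMod 2) G g • v j = ∑ i, τ g i j • v i := by
  refine gen _ (fun j => ?_) (fun g h hg hh j => ?_) ha hb
  · simp [Matrix.one_apply, ← MonoidAlgebra.one_def]
  · rw [map_mul, mul_smul, hh, Finset.smul_sum, map_mul]
    simp only [smul_comm (MonoidAlgebra.of (ZMod 2) G g), hg, Matrix.mul_apply, Finset.sum_smul,
      Finset.smul_sum]
    rw [Finset.sum_comm]
    simp only [smul_smul, mul_comm]

theorem s1 (U : Submodule ℚ (Fin 1 → ℚ)) : U = ⊥ ∨ U = ⊤ := by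
  refine or_iff_not_imp_left.2 fun h => eq_top_iff.2 fun w _ => ?_
  obtain ⟨u, hu, h0⟩ := Submodule.exists_mem_ne_zero_of_ne_bot h
  have h1 : u 0 ≠ 0 := fun e => h0 (funext fun i => by rw [Subsingleton.elim i 0, e]; rfl)
  have : w = (w 0 / u 0) • u := funext fun i => by
    rw [Subsingleton.elim i 0]; simp [h1]
  rw [this]; exact U.smul_mem _ hu

theorem s2 (U : Submodule ℚ (Fin 2 → ℚ)) (hU : ∀ g, ∀ v ∈ U, rep τ2 g v ∈ U) : U = ⊥ ∨ U = ⊤ := by
  refine or_iff_not_imp_left.2 fun h => eq_top_iff.2 fun w _ => ?_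
  obtain ⟨u, hu, h0⟩ := Submodule.exists_mem_ne_zero_of_ne_bot h
  have e : τ2 (a 2) = !![0, -1; 1, -1] := by decide
  have hD : u 0 ^ 2 - u 0 * u 1 + u 1 ^ 2 ≠ 0 := fun e => h0 (funext fun i => by
    fin_cases i
    · change u 0 = 0
      nlinarith [sq_nonneg (u 0 - 2 * u 1), sq_nonneg (u 0)]
    · change u 1 = 0
      nlinarith [sq_nonneg (2 * u 0 - u 1), sq_nonneg (u 1)])
  obtain ⟨d, hd⟩ : ∃ d : ℚ, d * (u 0 ^ 2 - u 0 * u 1 + u 1 ^ 2) = 1 := ⟨_, inv_mul_cancel₀ hD⟩
  have : w = ((w 0 * (u 0 - u 1) + w 1 * u 1) * d) • u +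
      ((u 0 * w 1 - u 1 * w 0) * d) • rep τ2 (a 2) u := by
    funext i
    fin_cases i <;> simp [rep_apply, e, Fin.sum_univ_two]
    · linear_combination (-w 0) * hd
    · linear_combination (-w 1) * hd
  rw [this]
  exact U.add_mem (U.smul_mem _ hu) (U.smul_mem _ (hU _ _ hu))

theorem n4 {T : Type} [Ring T] (b : T) (h2 : (1 : T) + 1 = 0) (h : b * b * (b * b) = 1) :
    (b - 1) ^ 4 = 0 := by
  have e : ∀ x : T, (x - 1) ^ 2 = x * x - 1 := fun x => by
    have : (x - 1) ^ 2 = x * x - 1 + (1 - x) * (1 + 1) := by noncomm_ring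
    rw [this, h2, mul_zero, add_zero]
  rw [show 4 = 2 * 2 from rfl, pow_mul, e, e, h, sub_self]

theorem exists_sub (M : Type) [AddCommGroup M] [Module F M] [Finite M] [Nontrivial M] :
    ∃ T : Submodule F M, T ≠ ⊥ ∧ IsRed G 2 (FGModuleCat.of F T) := by
  obtain ⟨A, hA⟩ : ∃ A : F, A = MonoidAlgebra.of (ZMod 2) G (a 2) := ⟨_, rfl⟩
  obtain ⟨B, hB⟩ : ∃ B : F, B = MonoidAlgebra.of (ZMod 2) G (xa 0) := ⟨_, rfl⟩
  have h1 : A * (A * A) = 1 := by
    rw [hA, ← map_mul, ← map_mul, ← map_one (MonoidAlgebra.of (ZMod 2) G)]; congr 1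
  have h2 : B * A = A * (A * B) := by
    rw [hA, hB, ← map_mul, ← map_mul, ← map_mul]; congr 1
  have h2' : A * B = B * (A * A) := by
    rw [hA, hB, ← map_mul, ← map_mul, ← map_mul]; congr 1
  have h3 : B * B * (B * B) = 1 := by
    rw [hB, ← map_mul, ← map_mul, ← map_one (MonoidAlgebra.of (ZMod 2) G)]; congr 1
  have h4 : (B - 1) ^ 4 = 0 := n4 B (by
    rw [← map_one (algebraMap (ZMod 2) F), ← map_add, CharTwo.add_self_eq_zero, map_zero]) h3
  have fx : ∀ P : M → Prop, (∀ m, P m → P ((B - 1) • m)) → ∀ w, P w → w ≠ 0 →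
      ∃ v, v ≠ 0 ∧ P v ∧ B • v = v := fun P hP w hw h0 => by
    by_contra hn
    have : ∀ k : ℕ, (B - 1) ^ k • w ≠ 0 ∧ P ((B - 1) ^ k • w) := fun k => by
      induction k with
      | zero => simpa using ⟨h0, hw⟩
      | succ k ih =>
        rw [pow_succ', mul_smul]
        refine ⟨fun e => hn ⟨_, ih.1, ih.2, ?_⟩, hP _ ih.2⟩
        rwa [sub_smul, one_smul, sub_eq_zero] at e
    exact (this 4).1 (by rw [h4, zero_smul])
  have hc : ∀ c : ZMod 2, c = 0 ∨ c = 1 := by decide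
  by_cases hE : ∀ m : M, m + A • m + A • A • m = 0
  · obtain ⟨w, hw⟩ := exists_ne (0 : M)
    obtain ⟨v, h0, -, hv⟩ := fx (fun _ => True) (fun _ _ => trivial) w trivial hw
    have e1 : τ2 (a 2) = !![0, -1; 1, -1] := by decide
    have e2 : τ2 (xa 0) = !![1, -1; 0, -1] := by decide
    have e3 : A • A • v = -v + -(A • v) := by
      rw [← neg_add]; exact eq_neg_of_add_eq_zero_right (hE v)
    have e4 : ∀ m : M, A • m = 0 → m = 0 := fun m hm => by
      rw [← one_smul F m, ← h1, ← mul_assoc, mul_smul, hm, smul_zero]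
    refine sub τ2 s2 ![v, A • v] (act τ2 _ (fun j => ?_) fun j => ?_) fun c hc0 => ?_
    · rw [← hA, e1]
      fin_cases j <;> simp [Fin.sum_univ_two, e3]
    · rw [← hB, e2]
      fin_cases j
      · simp [Fin.sum_univ_two, hv]
      · simp only [Fin.sum_univ_two]
        change B • A • v = _
        rw [← mul_smul, h2, mul_smul, mul_smul, hv, e3]; simp
    · rw [Fin.sum_univ_two] at hc0
      funext i
      rcases hc (c 0) with p | p <;> rcases hc (c 1) with q | q <;>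
        simp only [p, q, map_zero, map_one, zero_smul, one_smul, zero_add, add_zero,
          Matrix.cons_val_zero, Matrix.cons_val_one] at hc0
      · fin_cases i <;> simp [p, q]
      · exact absurd (e4 _ hc0) h0
      · exact absurd hc0 h0
      · have := hE v
        rw [hc0, zero_add] at this
        exact absurd (e4 _ (e4 _ this)) h0
  · push Not at hE
    obtain ⟨w, hw⟩ := hE
    obtain ⟨v, h0, hv1, hv⟩ := fx (fun m => A • m = m) (fun m hm => by
      rw [sub_smul, one_smul, smul_sub, hm, ← mul_smul, h2', mul_smul, mul_smul, hm, hm]) _ (by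
      rw [smul_add, smul_add, ← mul_smul A A w, ← mul_smul A (A * A) w, h1, one_smul]
      abel) hw
    haveI : Subsingleton (Fin (0 + 1)) := inferInstanceAs (Subsingleton (Fin 1))
    refine sub (n := 0) 1 (fun U _ => s1 U) (fun _ => v) (act 1 _ (fun j => ?_) fun j => ?_)
      fun c hc0 => ?_
    · rw [← hA, hv1, Subsingleton.elim j 0]; simp
    · rw [← hB, hv, Subsingleton.elim j 0]; simp
    · funext i
      rw [Subsingleton.elim i 0]
      rcases hc (c 0) with p | p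
      · exact p
      · simp [p, ← MonoidAlgebra.one_def] at hc0
        exact absurd hc0 h0

theorem cls_add {T : Type} [Ring T] (A B C : FGModuleCat.{0} T) (f : A →ₗ[T] B) (g : B →ₗ[T] C)
    (hf : Function.Injective f) (hg : Function.Surjective g) (h : Function.Exact f g) :
    cls B = cls A + cls C := by
  have : cls B - cls A - cls C = 0 :=
    (QuotientAddGroup.eq_zero_iff _).2 (AddSubgroup.subset_closure ⟨A, B, C, ⟨f, g, hf, hg, h⟩, rfl⟩)
  rw [sub_sub, sub_eq_zero] at this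
  exact this

theorem all (k : ℕ) : ∀ M : FGModuleCat.{0} F, Nat.card M = k →
    cls M ∈ AddSubmonoid.closure {x | ∃ W, IsRed G 2 W ∧ x = cls W} := by
  haveI : Finite F := Module.finite_of_finite (ZMod 2)
  induction k using Nat.strong_induction_on with
  | _ k ih =>
    intro M hM
    haveI : Finite M := Module.finite_of_finite F
    rcases subsingleton_or_nontrivial M with h | h
    · have := cls_add M M M LinearMap.id LinearMap.id Function.injective_id Function.surjective_id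
        fun x => ⟨fun _ => ⟨x, rfl⟩, fun _ => Subsingleton.elim _ _⟩
      rw [left_eq_add.1 this]; exact zero_mem _
    · obtain ⟨T, hT, hr⟩ := exists_sub M
      rw [cls_add (FGModuleCat.of F T) M (FGModuleCat.of F (M ⧸ T)) T.subtype T.mkQ
        T.subtype_injective T.mkQ_surjective (LinearMap.exact_subtype_mkQ T)]
      refine add_mem (AddSubmonoid.subset_closure ⟨_, hr, rfl⟩) (ih _ ?_ _ rfl)
      haveI := Submodule.nontrivial_iff_ne_bot.2 hT
      have h1 := T.card_eq_card_quotient_mul_card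
      have h2 : 1 < Nat.card T := Finite.one_lt_card
      haveI : Finite (M ⧸ T) := Finite.of_surjective _ T.mkQ_surjective
      have h3 : 0 < Nat.card (M ⧸ T) := Nat.card_pos
      change Nat.card (M ⧸ T) < k
      nlinarith

theorem condN : CondN G 2 := fun P _ => all _ P rfl

end Pool.Agent.H.MP_70eb0a_al
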